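import Pool.Agent.U32.DC.Asm
import Pool.Agent.U690.DC.BICOL
import Pool.Agent.U568.DC.GOOD
import Pool.Agent.U568.DC.ROUND
import Pool.Agent.U373.DC.MWU

set_option autoImplicit false

/-!
# DOMINATING SET is solvable in polynomial time on balanced chordal graphs (MP_1e64e3_lc, Q1)

The closed neighbourhood hypergraph of a balanced chordal graph has no odd special cycle, so by the
good colourings of Berge every fractional dominating function is rounded to a dominating set without
loss; a fractional dominating function of weight less than (minimum + 1) is found by greedy
multiplicative weights, all in integers, so the decision procedure runs in polynomial time on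
Mathlib's Turing machines.

Authors: project DC: plan, statements of the blocks and the block NB from the starting library
(helper600 of the earlier run, folder Y600/DC); helper32 (polynomial-time algorithm ALG, assembly),
helper690 (bicolourings BICOL), helper568 (good colourings GOOD, rounding ROUND), helper373
(multiplicative weights MWU).
-/

namespace Pool.Agent.Results.MP_1e64e3_lc.BalancedChordal

open Pool.Agent.NPC Pool.Agent.NPC.R671 Pool.Agent.Y600.DC

/-- DOMINATING SET restricted to balanced chordal graphs is solvable in polynomial time: there is a
polynomial-time computable function on bit strings which on (the code of) a balanced chordal graph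
`G` on `{0, …, n-1}`, given by its adjacency matrix, and an integer `k` written in binary answers
`true` exactly if `G` has a dominating set with at most `k` vertices. -/
theorem result : ∃ A : List Bool → List Bool, PolyTime A ∧
    ∀ (n : ℕ) (G : SimpleGraph (Fin n)) (k : ℕ), Chordal G → Balanced G →
      (A (bits (adjMatrix G, k)) = [true] ↔
        ∃ D : Finset (Fin n), D.card ≤ k ∧ Dominating G D) := by
  obtain ⟨A, hA, h⟩ := Pool.Agent.U32.DC.main
    (Pool.Agent.U568.DC.t_ROUND (Pool.Agent.U568.DC.t_GOOD Pool.Agent.U690.DC.Bicol.t_BICOL))
    Pool.Agent.U373.DC.t_MWU
  exact ⟨A, hA, fun n G k hc hb => h n G k (nb (Fin n) G hc hb)⟩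

end Pool.Agent.Results.MP_1e64e3_lc.BalancedChordal
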